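import Pool.Agent.W957.CH.Stm2

namespace Pool.Agent.W138.CH.FOR
open Pool.Agent.W957.CH

theorem cyc_of {V : Type} {G : SimpleGraph V} {h q w : V} {s r : List V}
    (hp : Pth G (h :: q :: (s ++ w :: r))) (ha : G.Adj h w) : Cyc G (h :: q :: (s ++ [w])) := by
  have he : h :: q :: (s ++ w :: r) = (h :: q :: (s ++ [w])) ++ r := by simp
  rw [he] at hp
  refine ⟨by simp, ⟨?_, ?_⟩, ?_⟩
  · exact hp.1.of_append_left
  · exact hp.2.left_of_append
  · intro a b ha' hb'
    have h1 : h = a := by simpa using ha'
    have h2 : (h :: q :: (s ++ [w])).getLast? = some w := by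
      have h3 : h :: q :: (s ++ [w]) = (h :: q :: s) ++ [w] := by simp
      rw [h3, List.getLast?_append]
      simp
    rw [h2] at hb'
    have h4 : w = b := by simpa using hb'
    rw [← h1, ← h4]
    exact ha.symm

theorem mem_nbr {V : Type} {G : SimpleGraph V} {A : Finset V} {v w : V} :
    w ∈ nbr G A {v} ↔ w ∈ A ∧ w ≠ v ∧ G.Adj v w := by
  unfold nbr
  simp [Finset.mem_filter]

/-- a maximal path in `A` with head outside `B` gives a cycle -/
theorem cyc_of_max {V : Type} [DecidableEq V] {G : SimpleGraph V} {A : Finset V} {h : V}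
    {t : List V} (hp : Pth G (h :: t)) (hA : ∀ x ∈ h :: t, x ∈ A)
    (hmax : ∀ l', Pth G l' → (∀ x ∈ l', x ∈ A) → l'.length ≤ (h :: t).length)
    (hd : 3 ≤ (nbr G A {h}).card) : ∃ l, Cyc G l ∧ ∀ x ∈ l, x ∈ A := by
  have hin : ∀ w ∈ nbr G A {h}, w ∈ t := by
    intro w hw
    rw [mem_nbr] at hw
    by_contra hwt
    have hw2 : w ∉ h :: t := by
      simp only [List.mem_cons, not_or]
      exact ⟨hw.2.1, hwt⟩
    have h1 : Pth G (w :: h :: t) := by
      refine ⟨List.nodup_cons.mpr ⟨hw2, hp.1⟩, ?_⟩
      rw [List.isChain_cons_cons]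
      exact ⟨hw.2.2.symm, hp.2⟩
    have h2 := hmax (w :: h :: t) h1 (by
      intro x hx
      rcases List.mem_cons.mp hx with hx | hx
      · rw [hx]
        exact hw.1
      · exact hA x hx)
    simp at h2
  cases t with
  | nil =>
    have h1 : (nbr G A {h}).Nonempty := Finset.card_pos.mp (by omega)
    obtain ⟨w, hw⟩ := h1
    have h2 := hin w hw
    simp at h2
  | cons q t' =>
    obtain ⟨w, hw, hwq⟩ := Finset.exists_mem_ne (show 1 < (nbr G A {h}).card by omega) q
    have h1 := hin w hw
    have h2 : w ∈ t' := by
      rcases List.mem_cons.mp h1 with h3 | h3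
      · exact absurd h3 hwq
      · exact h3
    obtain ⟨s, r, hsr⟩ := List.append_of_mem h2
    subst hsr
    rw [mem_nbr] at hw
    refine ⟨_, cyc_of hp hw.2.2, ?_⟩
    intro x hx
    apply hA
    simp only [List.mem_cons, List.mem_append] at hx ⊢
    tauto

theorem pth_reverse {V : Type} {G : SimpleGraph V} {l : List V} (hp : Pth G l) :
    Pth G l.reverse := by
  refine ⟨List.nodup_reverse.mpr hp.1, ?_⟩
  rw [List.isChain_reverse]
  exact hp.2.imp (fun a b hab => hab.symm)

theorem exists_max {V : Type} [DecidableEq V] (G : SimpleGraph V) (A : Finset V)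
    (l0 : List V) (hp0 : Pth G l0) (hA0 : ∀ x ∈ l0, x ∈ A) :
    ∃ l, Pth G l ∧ (∀ x ∈ l, x ∈ A) ∧ l0.length ≤ l.length ∧
      ∀ l', Pth G l' → (∀ x ∈ l', x ∈ A) → l'.length ≤ l.length := by
  classical
  have hb : ∀ l', Pth G l' → (∀ x ∈ l', x ∈ A) → l'.length ≤ A.card := by
    intro l' h1 h2
    rw [← List.toFinset_card_of_nodup h1.1]
    apply Finset.card_le_card
    intro x hx
    exact h2 x (List.mem_toFinset.mp hx)
  let P : ℕ → Prop := fun n => ∃ l, Pth G l ∧ (∀ x ∈ l, x ∈ A) ∧ l.length = n
  have hP0 : P l0.length := ⟨l0, hp0, hA0, rfl⟩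
  have hs : P (Nat.findGreatest P A.card) := Nat.findGreatest_spec (hb l0 hp0 hA0) hP0
  obtain ⟨l, h1, h2, h3⟩ := hs
  refine ⟨l, h1, h2, ?_, ?_⟩
  · rw [h3]
    exact Nat.le_findGreatest (hb l0 hp0 hA0) hP0
  · intro l' h4 h5
    rw [h3]
    exact Nat.le_findGreatest (hb l' h4 h5) ⟨l', h4, h5, rfl⟩

theorem t_FOR : S_FOR := by
  intro V _ G A B hBA hne hdeg hB
  obtain ⟨v0, hv0⟩ := hne
  rw [Finset.mem_sdiff] at hv0
  have hd0 := hdeg v0 hv0.1 hv0.2
  obtain ⟨a, ha⟩ : (nbr G A {v0}).Nonempty := Finset.card_pos.mp (by omega)
  obtain ⟨b, hb, hba⟩ := Finset.exists_mem_ne (show 1 < (nbr G A {v0}).card by omega) a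
  rw [mem_nbr] at ha hb
  have hp0 : Pth G [a, v0, b] := by
    refine ⟨?_, ?_⟩
    · simp only [List.nodup_cons, List.mem_cons, List.not_mem_nil, or_false, not_or,
        not_false_eq_true, List.nodup_nil, and_true]
      exact ⟨⟨ha.2.1, fun h => hba h.symm⟩, fun h => hb.2.1 h.symm⟩
    · simp only [List.isChain_cons_cons, List.isChain_singleton, and_true]
      exact ⟨ha.2.2.symm, hb.2.2⟩
  have hA0 : ∀ x ∈ [a, v0, b], x ∈ A := by
    intro x hx
    simp only [List.mem_cons, List.not_mem_nil, or_false] at hx
    rcases hx with hx | hx | hx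
    · rw [hx]; exact ha.1
    · rw [hx]; exact hv0.1
    · rw [hx]; exact hb.1
  obtain ⟨l, hp, hA, hlen, hmax⟩ := exists_max G A [a, v0, b] hp0 hA0
  simp only [List.length_cons, List.length_nil] at hlen
  match l, hp, hA, hlen, hmax with
  | [], _, _, hlen, _ => simp at hlen
  | [_], _, _, hlen, _ => simp at hlen
  | [_, _], _, _, hlen, _ => simp at hlen
  | p0 :: p1 :: p2 :: t, hp, hA, _, hmax =>
    by_cases h0 : p0 ∈ B
    · -- the reversed list
      have hrev : (p0 :: p1 :: p2 :: t).reverse ≠ [] := by simp
      obtain ⟨e, t', het⟩ := List.exists_cons_of_ne_nil hrev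
      have hpr := pth_reverse hp
      rw [het] at hpr
      have hmemr : ∀ x, x ∈ e :: t' ↔ x ∈ p0 :: p1 :: p2 :: t := by
        intro x
        rw [← het]
        exact List.mem_reverse
      have hAr : ∀ x ∈ e :: t', x ∈ A := fun x hx => hA x ((hmemr x).mp hx)
      have hlr : (e :: t').length = (p0 :: p1 :: p2 :: t).length := by
        rw [← het, List.length_reverse]
      by_cases he : e ∈ B
      · -- both ends in B
        have hlast : (p0 :: p1 :: p2 :: t) = (e :: t').reverse := by
          rw [← het, List.reverse_reverse]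
        have hnd := hp.1
        have he2 : e ∈ p2 :: t := by
          have h1 : (p2 :: t).getLast? = some e := by
            have h2 : (p0 :: p1 :: p2 :: t).getLast? = some e := by
              rw [hlast, List.reverse_cons, List.getLast?_append]
              simp
            have h3 : (p0 :: p1 :: p2 :: t).getLast? = (p2 :: t).getLast? := by
              rw [List.getLast?_cons_cons, List.getLast?_cons_cons]
            rw [h3] at h2
            exact h2
          exact List.mem_of_getLast? h1
        have hne0 : p0 ≠ e := by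
          intro h
          rw [List.nodup_cons] at hnd
          apply hnd.1
          rw [h]
          exact List.mem_cons_of_mem _ he2
        have hBeq : B = {p0, e} := by
          symm
          apply Finset.eq_of_subset_of_card_le
          · intro x hx
            rw [Finset.mem_insert, Finset.mem_singleton] at hx
            rcases hx with hx | hx
            · rw [hx]; exact h0
            · rw [hx]; exact he
          · rw [Finset.card_pair hne0]
            exact hB
        have hp1B : p1 ∉ B := by
          rw [hBeq, Finset.mem_insert, Finset.mem_singleton, not_or]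
          rw [List.nodup_cons, List.nodup_cons] at hnd
          refine ⟨?_, ?_⟩
          · intro h
            apply hnd.1
            rw [h]
            exact List.mem_cons_self
          · intro h
            apply hnd.2.1
            rw [h]
            exact he2
        have hp1A : p1 ∈ A := hA p1 (by simp)
        have hd1 := hdeg p1 hp1A hp1B
        have hx : ∃ x ∈ nbr G A {p1}, x ≠ p0 ∧ x ≠ p2 := by
          by_contra hcon
          push Not at hcon
          have h1 : nbr G A {p1} ⊆ {p0, p2} := by
            intro x hx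
            rw [Finset.mem_insert, Finset.mem_singleton]
            by_cases hx0 : x = p0
            · left; exact hx0
            · right; exact hcon x hx hx0
          have h2 := Finset.card_le_card h1
          have h3 : ({p0, p2} : Finset V).card ≤ 2 := Finset.card_le_two
          omega
        obtain ⟨x, hx, hx0, hx2⟩ := hx
        rw [mem_nbr] at hx
        have hpt : Pth G (p1 :: p2 :: t) := ⟨(List.nodup_cons.mp hp.1).2, hp.2.of_cons⟩
        by_cases hxl : x ∈ t
        · obtain ⟨s, r, hsr⟩ := List.append_of_mem hxl
          subst hsr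
          refine ⟨_, cyc_of hpt hx.2.2, ?_⟩
          intro y hy
          apply hA
          simp only [List.mem_cons, List.mem_append] at hy ⊢
          tauto
        · have hxnl : x ∉ p1 :: p2 :: t := by
            simp only [List.mem_cons, not_or]
            exact ⟨hx.2.1, hx2, hxl⟩
          have hxB : x ∉ B := by
            rw [hBeq, Finset.mem_insert, Finset.mem_singleton, not_or]
            refine ⟨hx0, ?_⟩
            intro h
            apply hxnl
            rw [h]
            exact List.mem_cons_of_mem _ he2
          have hpx : Pth G (x :: p1 :: p2 :: t) := by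
            refine ⟨List.nodup_cons.mpr ⟨hxnl, hpt.1⟩, ?_⟩
            rw [List.isChain_cons_cons]
            exact ⟨hx.2.2.symm, hpt.2⟩
          apply cyc_of_max hpx
          · intro y hy
            rcases List.mem_cons.mp hy with hy | hy
            · rw [hy]; exact hx.1
            · exact hA y (List.mem_cons_of_mem _ hy)
          · intro l' h1 h2
            have h3 := hmax l' h1 h2
            simpa using h3
          · exact hdeg x hx.1 hxB
      · apply cyc_of_max hpr hAr
        · intro l' h1 h2
          rw [hlr]
          exact hmax l' h1 h2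
        · exact hdeg e (hAr e List.mem_cons_self) he
    · apply cyc_of_max hp hA hmax
      exact hdeg p0 (hA p0 List.mem_cons_self) h0

end Pool.Agent.W138.CH.FOR
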